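import Pool.Agent.helper81.PL.SpecA

/-!
# Module OUT of project bs: writing the answer
-/

set_option autoImplicit false
set_option linter.dupNamespace false

namespace Pool.Agent.helper81.PL

open Pool.Agent.helper62 Prog Function

theorem OUT : OUT_stmt := by
  refine ⟨.ifp 0 .skip (.push 0 false) (.seq (clear 0) (.push 0 true)), 10, ?_⟩
  intro b
  cases b
  · have h : update (fun _ => ([] : List Bool)) 0 (cd false) 0 = false :: [] := by
      rw [update_self]; rfl
    have h1 : Runs (I := ℕ) (if false then (.seq (clear 0) (.push 0 true)) else (.push 0 false))
        (update (update (fun _ => ([] : List Bool)) 0 (cd false)) 0 [])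
        (update (fun _ => []) 0 [false]) 1 := by
      have := Runs.push (I := ℕ) 0 false
        (update (update (fun _ => ([] : List Bool)) 0 (cd false)) 0 [])
      rw [update_self, update_idem, update_idem] at this
      rw [update_idem]
      exact this
    exact (Runs.ifp (pn := .skip) h h1).mono (by norm_num)
  · have h : update (fun _ => ([] : List Bool)) 0 (cd true) 0 = true :: [false, false] := by
      rw [update_self]; rfl
    have h1 : Runs (I := ℕ) (if true then (.seq (clear 0) (.push 0 true)) else (.push 0 false))
        (update (update (fun _ => ([] : List Bool)) 0 (cd true)) 0 [false, false])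
        (update (fun _ => []) 0 [true]) 6 := by
      have h2 := Runs.clear (I := ℕ) (k := 0) [false, false]
        (update (update (fun _ => ([] : List Bool)) 0 (cd true)) 0 [false, false]) (by
          rw [update_self])
      have h3 := Runs.push (I := ℕ) 0 true
        (update (update (update (fun _ => ([] : List Bool)) 0 (cd true)) 0 [false, false]) 0 [])
      have h4 := Runs.seq h2 h3
      simp only [update_self, update_idem] at h4
      simp only [update_idem]
      exact h4.mono (by simp)
    exact (Runs.ifp (pn := .skip) h h1).mono (by norm_num)

end Pool.Agent.helper81.PL
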